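import Pool.Agent.N145.SX.Stm

/-!
# SX/GEO: rational curves from the trace relation for the product of a variety and a curve
-/

set_option autoImplicit false
set_option linter.overlappingInstances false
set_option linter.unusedSectionVars false
set_option linter.unusedVariables false
set_option maxHeartbeats 4000000
set_option synthInstance.maxHeartbeats 400000

open Polynomial FF IsDedekindDomain IntermediateField Module

namespace Pool.Agent.N545.SX

open Pool.Agent.W603.LV Pool.Agent.W619.PQ Pool.Agent.N145.PC Pool.Agent.N145.PL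
open Pool.Agent.N145.SX
open Pool.Agent.Y184.NT (trForm)

/-- the trace only depends on the subfield -/
theorem trace_zero_of_mem {L B K : Type} [Field L] [Field B] [Field K] [Algebra L K] [Algebra B K]
    (M : IntermediateField L K) (M' : IntermediateField B K) (h : ∀ z, z ∈ M ↔ z ∈ M') {z : K}
    (hz : Algebra.trace M K z = 0) : Algebra.trace M' K z = 0 := by
  let e : M ≃+* M' :=
    { toFun := fun a => ⟨a, (h a).1 a.2⟩
      invFun := fun a => ⟨a, (h a).2 a.2⟩
      left_inv := fun a => rfl
      right_inv := fun a => rfl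
      map_mul' := fun a b => rfl
      map_add' := fun a b => rfl }
  have h1 := Algebra.trace_eq_of_ringEquiv e (by
    ext a
    rfl) z
  rw [← h1, hz, map_zero]

section

variable {K : Type} [Field K] [Algebra ℂ K] {n : ℕ}

/-- the coordinates of the product are a transcendence basis -/
theorem zz_basis (E : IntermediateField ℂ K) (C : IntermediateField ℂ K)
    (hE : Algebra.trdeg ℂ E = n) (hK : Algebra.trdeg ℂ K = (n + 1 : ℕ)) (x : Fin n → E)
    (hx : IsTranscendenceBasis ℂ x) (t : C) (ht : ¬ IsAlgebraic E (t : K)) :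
    IsTranscendenceBasis ℂ (zz K x t) := by
  have hLK : Algebra.trdeg E K = (1 : ℕ) := Pool.Agent.Y174.trdeg_LK (r := 1) hE hK
  have hxB : IsTranscendenceBasis E (fun _ : Fin (0 + 1) => (t : K)) := by
    have h1 : AlgebraicIndependent E (fun _ : Fin (0 + 1) => (t : K)) := by
      have : Unique (Fin (0 + 1)) := inferInstanceAs (Unique (Fin 1))
      rw [algebraicIndependent_unique_type_iff]
      exact ht
    refine h1.isTranscendenceBasis_of_lift_trdeg_le_of_finite ?_
    rw [hLK]
    simp
  have hZ := Pool.Agent.Y174.basis_append hx hxB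
  have h1 : Fin.append (algebraMap E K ∘ x) (fun _ : Fin (0 + 1) => (t : K)) = zz K x t := by
    rw [Fin.append_right_eq_snoc]
    rfl
  rw [h1] at hZ
  exact hZ

/-- the determinant of a dual frame in other coordinates is not zero -/
theorem det_ne (Z Y : Fin (n + 1) → K) (hZ : IsTranscendenceBasis ℂ Z)
    (hY : IsTranscendenceBasis ℂ Y) (Ef : Fin (n + 1) → Derivation ℂ K K)
    (hEf : ∀ i j, Ef i (Z j) = if i = j then 1 else 0) :
    (Matrix.of fun i j => Ef i (Y j) : Matrix (Fin (n + 1)) (Fin (n + 1)) K).det ≠ 0 := by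
  classical
  obtain ⟨Dz, hDz⟩ := Pool.Agent.W636.PG.exists_duals ℂ K (n + 1) Y hY
  have hexp : ∀ i, Dz i = ∑ l, Dz i (Z l) • Ef l := by
    intro i
    refine Pool.Agent.Y888.NT.der_ext' Z hZ fun j => ?_
    have h1 : (∑ l, Dz i (Z l) • Ef l) (Z j) = ∑ l, Dz i (Z l) * Ef l (Z j) := by
      rw [← Derivation.coeFnAddMonoidHom_apply, map_sum, Finset.sum_apply]
      rfl
    rw [h1, Finset.sum_eq_single j]
    · rw [hEf, if_pos rfl, mul_one]
    · intro l _ hl
      rw [hEf, if_neg hl, mul_zero]
    · intro h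
      exact absurd (Finset.mem_univ j) h
  have hmul : (Matrix.of fun i l => Dz i (Z l) : Matrix (Fin (n + 1)) (Fin (n + 1)) K) *
      (Matrix.of fun i j => Ef i (Y j) : Matrix (Fin (n + 1)) (Fin (n + 1)) K) = 1 := by
    ext i j
    rw [Matrix.mul_apply, Matrix.one_apply]
    have h1 : (∑ l, Dz i (Z l) • Ef l) (Y j) = ∑ l, Dz i (Z l) * Ef l (Y j) := by
      rw [← Derivation.coeFnAddMonoidHom_apply, map_sum, Finset.sum_apply]
      rfl
    simp only [Matrix.of_apply]
    rw [← h1, ← hexp, hDz]
  intro h0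
  have h1 := congrArg Matrix.det hmul
  rw [Matrix.det_mul, h0, mul_zero, Matrix.det_one] at h1
  exact zero_ne_one h1

end

/-- **The trace relation gives rational curves.** -/
theorem GEO (hclosed : S_CLOSED) (hfib : S_FIB) : S_GEO := by
  intro K _ _ hess n E C _ hsup hE hK x hx t ht D0 hD0 L _ _ _ _ _ h hval h2
  classical
  obtain ⟨hcl1, hcl2, hcl3⟩ := hclosed K n E C hsup hE hK
  -- the image in the product with the first factor
  obtain ⟨M, hM⟩ : ∃ M, M = IntermediateField.adjoin L (E : Set K) := ⟨_, rfl⟩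
  have hle : E ≤ M.restrictScalars ℂ := by
    intro y hy
    rw [mem_restrictScalars, hM]
    exact IntermediateField.subset_adjoin _ _ hy
  have hfinM : FiniteDimensional (M.restrictScalars ℂ : IntermediateField ℂ K) K := by
    have h1 : FiniteDimensional M K := inferInstance
    exact h1
  obtain ⟨E', hE'⟩ : ∃ E' : IntermediateField E K,
      E' = IntermediateField.extendScalars hle := ⟨_, rfl⟩
  have hE'm : ∀ z : K, z ∈ M ↔ z ∈ E' := by
    intro z
    rw [hE', IntermediateField.mem_extendScalars, mem_restrictScalars]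
  have hfinE : FiniteDimensional E' K := by
    have h1 : FiniteDimensional M K := inferInstance
    rw [hE']
    exact h1
  obtain ⟨T, ξ, hT, hξM, hξ, hZ, DE, Ef, hlift, hEfB, hEf⟩ :=
    exists_frame hK E hE (M.restrictScalars ℂ) hle
  -- the determinant
  have hzzb := zz_basis E C hE hK x hx t (hcl1 t ht)
  have hzc : ∀ j : Fin n, zz K x t j.castSucc = (x j : K) := fun j => by
    unfold zz
    rw [Fin.snoc_castSucc]
    rfl
  have hzl : zz K x t (Fin.last n) = (t : K) := by
    unfold zz
    rw [Fin.snoc_last]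
    rfl
  obtain ⟨dt, hdt⟩ : ∃ dt, dt = (Matrix.of fun i j => Ef i (zz K x t j) :
    Matrix (Fin (n + 1)) (Fin (n + 1)) K).det := ⟨_, rfl⟩
  have hdt0 : dt ≠ 0 := by
    rw [hdt]
    exact det_ne _ _ hZ hzzb Ef hEf
  obtain ⟨ε, hε0, hε⟩ := det_one (A := (Matrix.of fun i j => Ef i (zz K x t j) :
    Matrix (Fin (n + 1)) (Fin (n + 1)) K)) (i0 := Fin.last n) (by
      intro j hj
      rw [Matrix.of_apply]
      obtain ⟨j', rfl⟩ := Fin.exists_castSucc_eq.2 hj
      rw [hzc]
      exact hEfB _ (x j').2)
  rw [← hdt, Matrix.of_apply, hzl] at hε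
  obtain ⟨mi, hmi⟩ : ∃ mi, mi = ((Matrix.of fun i j => Ef i (zz K x t j) :
    Matrix (Fin (n + 1)) (Fin (n + 1)) K).submatrix Fin.castSucc
      (Fin.last n).succAbove).det := ⟨_, rfl⟩
  rw [← hmi] at hε
  have hmi0 : mi ≠ 0 := by
    intro h1
    apply hdt0
    rw [hε, h1, mul_zero]
  have hmiM : mi ∈ M := by
    rw [hmi, Matrix.det_apply]
    refine sum_mem fun σ _ => ?_
    rw [Units.smul_def, zsmul_eq_mul]
    refine mul_mem (intCast_mem _ _) (prod_mem fun j _ => ?_)
    rw [Matrix.submatrix_apply, Matrix.of_apply, Fin.succAbove_last, hzc]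
    have h3 : (x j : K) ∈ M.restrictScalars ℂ := hle (x j).2
    have h4 := hlift (σ j).castSucc ⟨_, h3⟩
    change Ef (σ j).castSucc (x j : K) ∈ M
    rw [h4]
    exact (DE (σ j).castSucc ⟨_, h3⟩).2
  -- the value
  have hfin : ∀ φ ∈ HL D0 (∅ : Set (Place ℂ C)),
      Algebra.trace E' K (Ef (Fin.last n) (t : K) * (φ : K)) = 0 := by
    intro φ hφ
    obtain ⟨a, ha⟩ := hval M (φ : K) (fun i => (DE i : Derivation ℂ M M)) Ef
      (fun i g => hlift i g)
    have h3 : Algebra.trace M K (h * (φ : K)) = 0 := by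
      subst hM
      exact h2 φ hφ
    have h4 : Algebra.trace M K (trForm (zz K x t) (φ : K) Ef) = 0 := by
      rw [ha, ← Algebra.smul_def, map_smul, h3, smul_zero]
    unfold trForm at h4
    rw [← hdt, hε] at h4
    have hc : ((ε : K) * mi) ∈ M := mul_mem (intCast_mem _ _) hmiM
    have hc0 : (⟨(ε : K) * mi, hc⟩ : M) ≠ 0 := by
      intro h5
      have h6 : (ε : K) * mi = 0 := congrArg Subtype.val h5
      rcases mul_eq_zero.1 h6 with h7 | h7
      · have : CharZero K := charZero_of_injective_algebraMap (algebraMap ℂ K).injective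
        exact hε0 (by exact_mod_cast h7)
      · exact hmi0 h7
    have h5 : (ε : K) * Ef (Fin.last n) (t : K) * mi * (φ : K) =
        (⟨(ε : K) * mi, hc⟩ : M) • (Ef (Fin.last n) (t : K) * (φ : K)) := by
      rw [Algebra.smul_def]
      change (ε : K) * Ef (Fin.last n) (t : K) * mi * (φ : K) = ((ε : K) * mi) * _
      ring
    rw [h5, map_smul, smul_eq_mul] at h4
    exact trace_zero_of_mem M E' hE'm ((mul_eq_zero.1 h4).resolve_left hc0)
  -- the fibre
  let Ω := AlgebraicClosure K
  let Λ : IntermediateField E Ω := algebraicClosure E Ω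
  have hΛ : IsAlgClosed Λ := (algebraicClosure.isAlgClosure E Ω).isAlgClosed
  have hΛalg : Algebra.IsAlgebraic E Λ := inferInstance
  let FF : IntermediateField Λ Ω := IntermediateField.adjoin Λ (Set.range (algebraMap K Ω))
  have hTL : IsScalarTower ℂ E Ω := IsScalarTower.of_algebraMap_eq fun z => by
    rw [IsScalarTower.algebraMap_apply ℂ K Ω]
    rfl
  have hTΛ : IsScalarTower ℂ Λ Ω := IsScalarTower.of_algebraMap_eq fun z => by
    rw [IsScalarTower.algebraMap_apply ℂ E Ω]
    rfl
  let φ0 : K →+* FF :=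
    { toFun := fun z => ⟨algebraMap K Ω z, IntermediateField.subset_adjoin _ _ ⟨z, rfl⟩⟩
      map_one' := Subtype.ext (map_one _)
      map_mul' := fun a b => Subtype.ext (map_mul _ _ _)
      map_zero' := Subtype.ext (map_zero _)
      map_add' := fun a b => Subtype.ext (map_add _ _ _) }
  let iKF : Algebra K FF := φ0.toAlgebra
  have hKF : ∀ z : K, ((algebraMap K FF z : FF) : Ω) = algebraMap K Ω z := fun z => rfl
  have hT2 : IsScalarTower ℂ K FF := IsScalarTower.of_algebraMap_eq fun z => by
    apply Subtype.ext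
    rw [hKF, ← IsScalarTower.algebraMap_apply ℂ K Ω]
    rfl
  have hT5 : IsScalarTower ℂ Λ FF := inferInstance
  have hT4 : IsScalarTower E Λ FF := IsScalarTower.of_algebraMap_eq fun z =>
    Subtype.ext rfl
  have hgenF : IntermediateField.adjoin Λ (Set.range (algebraMap K FF)) = ⊤ := by
    have h1 : (IntermediateField.adjoin Λ (Set.range (algebraMap K FF))).map FF.val =
        (⊤ : IntermediateField Λ FF).map FF.val := by
      rw [IntermediateField.adjoin_map, ← AlgHom.fieldRange_eq_map,
        IntermediateField.fieldRange_val]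
      congr 1
      ext z
      simp only [Set.mem_image, Set.mem_range]
      constructor
      · rintro ⟨_, ⟨y, rfl⟩, rfl⟩
        exact ⟨y, rfl⟩
      · rintro ⟨y, rfl⟩
        exact ⟨_, ⟨y, rfl⟩, rfl⟩
    exact IntermediateField.map_injective _ h1
  have hLK : Algebra.trdeg E K = (1 : ℕ) := Pool.Agent.Y174.trdeg_LK (r := 1) hE hK
  have htrF : Algebra.trdeg Λ FF = (1 : ℕ) :=
    Pool.Agent.Y174.trdeg_F (L := E) (K := K) hLK hgenF
  have hessF : Algebra.EssFiniteType Λ FF := Pool.Agent.Y174.ess_F (k := ℂ) (K := K) hess hgenF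
  have hFF : IsFF Λ FF := ⟨hessF, by rw [htrF]; simp⟩
  obtain ⟨s, hs, hsM, -⟩ := hfib K n E C hsup hE hK t ht D0 hD0 ∅
    (fun P hP => absurd hP (Set.notMem_empty P)) E' T hT ξ ((hE'm ξ).1 hξM) hξ hZ Ef hEf hfin
    Λ FF (fun z hz => Subtype.ext rfl) hgenF
  refine ⟨(s : Ω), ?_, fun z => ?_⟩
  · intro hs'
    apply hs
    exact (isAlgebraic_algebraMap_iff (R := Λ) (S := FF) (A := Ω)
      (algebraMap FF Ω).injective).1 hs'
  · have h1 := hsM (algebraMap L K z) ((hE'm _).1 (M.algebraMap_mem z))
    have h3 : (IntermediateField.adjoin Λ {s}).map FF.val =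
        IntermediateField.adjoin Λ {((s : FF) : Ω)} := by
      rw [IntermediateField.adjoin_map, Set.image_singleton]
      rfl
    change algebraMap K Ω (algebraMap L K z) ∈ IntermediateField.adjoin Λ {((s : FF) : Ω)}
    rw [← h3]
    exact ⟨_, h1, rfl⟩

end Pool.Agent.N545.SX
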